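import Mathlib
import Pool.Agent.W896.RK.Defs

/-!
# Recursive systems of gates and circuits

A system of gates which may depend on each other cyclically (the values are given by the least
solution) is turned into a circuit, without increasing the formal degree.
-/

set_option autoImplicit false

open Finset

namespace Pool.Agent.V8H39.RM

open Pool.Agent.W896.RK

/-- gates which may depend on each other cyclically -/
structure Sys (V : Type) where
  /-- the gates -/
  G : Type
  /-- there are finitely many of them -/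
  [fintype : Fintype G]
  /-- what a gate computes -/
  gate : G → Gate V G
  /-- the output -/
  out : G

attribute [instance] Sys.fintype

variable {V J : Type}

/-- the numbers of occurrences of the bits `p j` in the list `L` -/
def cnt [DecidableEq V] (p : J → V) (L : List V) : J → ℕ := fun j => L.count (p j)

open Classical in
/-- `g` has a derivation from literals allowed by `R`, in which the bit `p j` occurs `c j` times -/
inductive Der (C : Sys V) (p : J → V) (R : V → Bool → Prop) : C.G → (J → ℕ) → Prop
  | lit {g : C.G} {v : V} {b : Bool} (e : C.gate g = Gate.lit v b) (h : R v b) :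
      Der C p R g (fun j => if p j = v then 1 else 0)
  | and {g a b : C.G} {c c' : J → ℕ} (e : C.gate g = Gate.and a b) (ha : Der C p R a c)
      (hb : Der C p R b c') : Der C p R g (fun j => c j + c' j)
  | any {g a : C.G} {S : Set C.G} {c : J → ℕ} (e : C.gate g = Gate.any S) (ha : a ∈ S)
      (h : Der C p R a c) : Der C p R g c

open Classical in
/-- one step of the derivation -/
def Stp (C : Sys V) (p : J → V) (R : V → Bool → Prop) (X : C.G → (J → ℕ) → Prop) (g : C.G)
    (c : J → ℕ) : Prop :=
  match C.gate g with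
  | Gate.lit v b => R v b ∧ c = fun j => if p j = v then 1 else 0
  | Gate.and a b => ∃ c₁ c₂, X a c₁ ∧ X b c₂ ∧ c = fun j => c₁ j + c₂ j
  | Gate.any S => ∃ a ∈ S, X a c

/-- derivations of depth at most `n` -/
def DerN (C : Sys V) (p : J → V) (R : V → Bool → Prop) : ℕ → C.G → (J → ℕ) → Prop
  | 0 => fun _ _ => False
  | n + 1 => Stp C p R (DerN C p R n)

variable {C : Sys V} {p : J → V} {R : V → Bool → Prop}

theorem derN_der {n : ℕ} : ∀ {g : C.G} {c : J → ℕ}, DerN C p R n g c → Der C p R g c := by
  induction n with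
  | zero => intro g c h; exact h.elim
  | succ n ih =>
    intro g c h
    change Stp C p R (DerN C p R n) g c at h
    unfold Stp at h
    cases e : C.gate g with
    | lit v b =>
      rw [e] at h
      obtain ⟨h1, rfl⟩ := h
      exact Der.lit e h1
    | and a b =>
      rw [e] at h
      obtain ⟨c₁, c₂, h1, h2, rfl⟩ := h
      exact Der.and e (ih h1) (ih h2)
    | any S =>
      rw [e] at h
      obtain ⟨a, h1, h2⟩ := h
      exact Der.any e h1 (ih h2)

theorem stp_mono {X Y : C.G → (J → ℕ) → Prop} (h : ∀ g c, X g c → Y g c) {g : C.G}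
    {c : J → ℕ} (h' : Stp C p R X g c) : Stp C p R Y g c := by
  unfold Stp at h' ⊢
  cases e : C.gate g with
  | lit v b => rw [e] at h'; exact h'
  | and a b =>
    rw [e] at h'
    obtain ⟨c₁, c₂, h1, h2, rfl⟩ := h'
    exact ⟨c₁, c₂, h _ _ h1, h _ _ h2, rfl⟩
  | any S =>
    rw [e] at h'
    obtain ⟨a, h1, h2⟩ := h'
    exact ⟨a, h1, h _ _ h2⟩

theorem derN_succ {n : ℕ} : ∀ {g : C.G} {c : J → ℕ}, DerN C p R n g c →
    DerN C p R (n + 1) g c := by
  induction n with
  | zero => intro g c h; exact h.elim
  | succ n ih => intro g c h; exact stp_mono (fun g c h => ih h) h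

theorem derN_mono {n m : ℕ} (hnm : n ≤ m) {g : C.G} {c : J → ℕ} (h : DerN C p R n g c) :
    DerN C p R m g c := by
  induction hnm with
  | refl => exact h
  | step _ ih => exact derN_succ ih

theorem der_derN {g : C.G} {c : J → ℕ} (h : Der C p R g c) : ∃ n, DerN C p R n g c := by
  induction h with
  | @lit g v b e h =>
    refine ⟨1, ?_⟩
    change Stp C p R _ g _
    unfold Stp
    rw [e]
    exact ⟨h, rfl⟩
  | @and g a b c c' e _ _ ih1 ih2 =>
    obtain ⟨n1, h1⟩ := ih1
    obtain ⟨n2, h2⟩ := ih2
    refine ⟨max n1 n2 + 1, ?_⟩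
    change Stp C p R _ g _
    unfold Stp
    rw [e]
    exact ⟨c, c', derN_mono (le_max_left _ _) h1, derN_mono (le_max_right _ _) h2, rfl⟩
  | @any g a S c e ha _ ih =>
    obtain ⟨n, h⟩ := ih
    refine ⟨n + 1, ?_⟩
    change Stp C p R _ g _
    unfold Stp
    rw [e]
    exact ⟨a, ha, h⟩

/-- the gates derived in depth at most `n` -/
def lvl (C : Sys V) (p : J → V) (R : V → Bool → Prop) (n : ℕ) : Set C.G :=
  {g | ∃ c, DerN C p R n g c}

theorem lvl_succ {n m : ℕ} (h : lvl C p R n = lvl C p R m) :
    lvl C p R (n + 1) = lvl C p R (m + 1) := by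
  have key : ∀ {n m : ℕ}, lvl C p R n = lvl C p R m → lvl C p R (n + 1) ⊆ lvl C p R (m + 1) := by
    intro n m h g hg
    obtain ⟨c, hc⟩ := hg
    change Stp C p R (DerN C p R n) g c at hc
    have h' : ∀ g, (∃ c, DerN C p R n g c) → ∃ c, DerN C p R m g c := by
      intro g hg
      have : g ∈ lvl C p R m := h ▸ hg
      exact this
    unfold Stp at hc
    cases e : C.gate g with
    | lit v b =>
      rw [e] at hc
      refine ⟨c, ?_⟩
      change Stp C p R _ g _
      unfold Stp
      rw [e]
      exact hc
    | and a b =>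
      rw [e] at hc
      obtain ⟨c₁, c₂, h1, h2, rfl⟩ := hc
      obtain ⟨c₁', h1'⟩ := h' a ⟨c₁, h1⟩
      obtain ⟨c₂', h2'⟩ := h' b ⟨c₂, h2⟩
      refine ⟨fun j => c₁' j + c₂' j, ?_⟩
      change Stp C p R _ g _
      unfold Stp
      rw [e]
      exact ⟨c₁', c₂', h1', h2', rfl⟩
    | any S =>
      rw [e] at hc
      obtain ⟨a, h1, h2⟩ := hc
      obtain ⟨c', h2'⟩ := h' a ⟨c, h2⟩
      refine ⟨c', ?_⟩
      change Stp C p R _ g _
      unfold Stp
      rw [e]
      exact ⟨a, h1, h2'⟩
  exact Set.Subset.antisymm (key h) (key h.symm)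

theorem lvl_stab {n : ℕ} (h : lvl C p R n = lvl C p R (n + 1)) : ∀ m, n ≤ m →
    lvl C p R m = lvl C p R n := by
  intro m hm
  induction hm with
  | refl => rfl
  | @step m _ ih =>
    have := lvl_succ ih
    exact this.trans h.symm

theorem lvl_subset {n m : ℕ} (h : n ≤ m) : lvl C p R n ⊆ lvl C p R m := by
  rintro g ⟨c, hc⟩
  exact ⟨c, derN_mono h hc⟩

theorem exists_stab (C : Sys V) (p : J → V) (R : V → Bool → Prop) :
    ∃ n ≤ Fintype.card C.G, lvl C p R n = lvl C p R (n + 1) := by
  classical
  by_contra hcon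
  push Not at hcon
  have h : ∀ n, n ≤ Fintype.card C.G + 1 → n ≤ (lvl C p R n).ncard := by
    intro n
    induction n with
    | zero => intro _; exact Nat.zero_le _
    | succ n ih =>
      intro hn
      have h1 : lvl C p R n ⊂ lvl C p R (n + 1) :=
        (lvl_subset (Nat.le_succ n)).ssubset_of_ne (hcon n (by omega))
      have h2 := Set.ncard_lt_ncard h1 (Set.toFinite _)
      have := ih (by omega)
      omega
  have h1 := h (Fintype.card C.G + 1) le_rfl
  have h2 : (lvl C p R (Fintype.card C.G + 1)).ncard ≤ Fintype.card C.G := by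
    rw [← Nat.card_eq_fintype_card, ← Set.ncard_univ]
    exact Set.ncard_le_ncard (Set.subset_univ _) (Set.toFinite _)
  omega

/-- depth `card C.G` is enough -/
theorem der_depth {g : C.G} (h : ∃ c, Der C p R g c) :
    ∃ c, DerN C p R (Fintype.card C.G) g c := by
  obtain ⟨c, hc⟩ := h
  obtain ⟨n, hn⟩ := der_derN hc
  obtain ⟨m, hm, h1⟩ := exists_stab C p R
  have h2 : g ∈ lvl C p R (max n m) := lvl_subset (le_max_left _ _) ⟨c, hn⟩
  rw [lvl_stab h1 _ (le_max_right _ _)] at h2
  exact lvl_subset hm h2

/-- the derivation needs not be consistent -/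
abbrev free (V : Type) : V → Bool → Prop := fun _ _ => True

/-- the counts are bounded -/
theorem derN_bound {n : ℕ} : ∀ {g : C.G} {c : J → ℕ}, DerN C p R n g c → ∀ j, c j ≤ 2 ^ n := by
  induction n with
  | zero => intro g c h; exact h.elim
  | succ n ih =>
    intro g c h j
    change Stp C p R (DerN C p R n) g c at h
    unfold Stp at h
    cases e : C.gate g with
    | lit v b =>
      rw [e] at h
      obtain ⟨h1, rfl⟩ := h
      have : 1 ≤ 2 ^ (n + 1) := Nat.one_le_two_pow
      simp only
      split_ifs <;> omega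
    | and a b =>
      rw [e] at h
      obtain ⟨c₁, c₂, h1, h2, rfl⟩ := h
      have h3 := ih h1 j
      have h4 := ih h2 j
      have h5 : 2 ^ (n + 1) = 2 * 2 ^ n := by rw [pow_succ]; ring
      simp only
      omega
    | any S =>
      rw [e] at h
      obtain ⟨a, h1, h2⟩ := h
      have h3 := ih h2 j
      have h5 : 2 ^ (n + 1) = 2 * 2 ^ n := by rw [pow_succ]; ring
      omega

/-- the degree -/
noncomputable def dg (C : Sys V) (p : J → V) (n : ℕ) (g : C.G) (j : J) : ℕ :=
  sSup {k | ∃ c, DerN C p (free V) n g c ∧ k = c j}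

theorem dg_bdd (C : Sys V) (p : J → V) (n : ℕ) (g : C.G) (j : J) :
    BddAbove {k | ∃ c, DerN C p (free V) n g c ∧ k = c j} := by
  refine ⟨2 ^ n, ?_⟩
  rintro k ⟨c, hc, rfl⟩
  exact derN_bound hc j

theorem le_dg {n : ℕ} {g : C.G} {c : J → ℕ} (h : DerN C p (free V) n g c) (j : J) :
    c j ≤ dg C p n g j :=
  le_csSup (dg_bdd C p n g j) ⟨c, h, rfl⟩

theorem dg_att {n : ℕ} {g : C.G} (h : ∃ c, DerN C p (free V) n g c) (j : J) :
    ∃ c, DerN C p (free V) n g c ∧ dg C p n g j = c j := by
  obtain ⟨c, hc⟩ := h
  have h1 : dg C p n g j ∈ {k | ∃ c, DerN C p (free V) n g c ∧ k = c j} :=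
    Nat.sSup_mem ⟨c j, c, hc, rfl⟩ (dg_bdd C p n g j)
  exact h1

theorem dg_zero {n : ℕ} {g : C.G} (h : ¬ ∃ c, DerN C p (free V) n g c) (j : J) :
    dg C p n g j = 0 := by
  unfold dg
  have : {k | ∃ c, DerN C p (free V) n g c ∧ k = c j} = ∅ := by
    rw [Set.eq_empty_iff_forall_notMem]
    rintro k ⟨c, hc, -⟩
    exact h ⟨c, hc⟩
  rw [this]
  simp

open Classical in
/-- the circuit -/
noncomputable def unr (C : Sys V) (p : J → V) : Circ V where
  G := C.G × Fin (Fintype.card C.G + 1)
  gate g := match g.2.val, g.2.isLt with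
    | 0, _ => Gate.any ∅
    | n + 1, hn => match C.gate g.1 with
      | Gate.lit v b => Gate.lit v b
      | Gate.and a b =>
        if (∃ c, DerN C p (free V) n a c) ∧ (∃ c, DerN C p (free V) n b c) then
          Gate.and (a, ⟨n, by omega⟩) (b, ⟨n, by omega⟩)
        else Gate.any ∅
      | Gate.any S => Gate.any {x | x.1 ∈ S ∧ x.2.val = n}
  out := (C.out, Fin.last _)
  rk g := g.2.val
  rk_and := by
    rintro ⟨g, ⟨n, hn⟩⟩ a b h
    cases n with
    | zero => simp at h
    | succ n =>
      simp only at h
      cases e : C.gate g with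
      | lit v b => rw [e] at h; simp at h
      | and a' b' =>
        rw [e] at h
        simp only at h
        split_ifs at h with hc
        obtain ⟨rfl, rfl⟩ := Gate.and.inj h
        exact ⟨Nat.lt_succ_self n, Nat.lt_succ_self n⟩
      | any S => rw [e] at h; simp at h
  rk_any := by
    rintro ⟨g, ⟨n, hn⟩⟩ S a h ha
    cases n with
    | zero =>
      simp only at h
      have := Gate.any.inj h
      rw [← this] at ha
      exact absurd ha (Set.notMem_empty _)
    | succ n =>
      simp only at h
      cases e : C.gate g with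
      | lit v b => rw [e] at h; simp at h
      | and a' b' =>
        rw [e] at h
        simp only at h
        split_ifs at h with hc
        have := Gate.any.inj h
        rw [← this] at ha
        exact absurd ha (Set.notMem_empty _)
      | any S' =>
        rw [e] at h
        have := Gate.any.inj h
        rw [← this] at ha
        have h2 : a.2.val = n := ha.2
        change a.2.val < n + 1
        omega

theorem unr_lit {g : C.G} {n : ℕ} {hn : n + 1 < Fintype.card C.G + 1} {v : V} {b : Bool}
    (e : C.gate g = Gate.lit v b) : (unr C p).gate (g, ⟨n + 1, hn⟩) = Gate.lit v b := by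
  simp [unr, e]

theorem unr_and {g a b : C.G} {n : ℕ} {hn : n + 1 < Fintype.card C.G + 1}
    (e : C.gate g = Gate.and a b)
    (h : (∃ c, DerN C p (free V) n a c) ∧ (∃ c, DerN C p (free V) n b c)) :
    (unr C p).gate (g, ⟨n + 1, hn⟩) = Gate.and (a, ⟨n, by omega⟩) (b, ⟨n, by omega⟩) := by
  simp only [unr, e]
  rw [if_pos h]

theorem unr_and' {g a b : C.G} {n : ℕ} {hn : n + 1 < Fintype.card C.G + 1}
    (e : C.gate g = Gate.and a b)
    (h : ¬ ((∃ c, DerN C p (free V) n a c) ∧ (∃ c, DerN C p (free V) n b c))) :
    (unr C p).gate (g, ⟨n + 1, hn⟩) = Gate.any ∅ := by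
  simp only [unr, e]
  rw [if_neg h]
  rfl

theorem unr_any {g : C.G} {S : Set C.G} {n : ℕ} {hn : n + 1 < Fintype.card C.G + 1}
    (e : C.gate g = Gate.any S) :
    (unr C p).gate (g, ⟨n + 1, hn⟩) = Gate.any {x | x.1 ∈ S ∧ x.2.val = n} := by
  simp only [unr, e]

theorem unr_zero {g : C.G} {hn : 0 < Fintype.card C.G + 1} :
    (unr C p).gate (g, ⟨0, hn⟩) = Gate.any ∅ := rfl

theorem derN_free {n : ℕ} : ∀ {g : C.G} {c : J → ℕ}, DerN C p R n g c →
    DerN C p (free V) n g c := by
  induction n with
  | zero => intro g c h; exact h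
  | succ n ih =>
    intro g c h
    have h1 : Stp C p R (DerN C p (free V) n) g c := stp_mono (fun g c h => ih h) h
    change Stp C p (free V) _ g c
    unfold Stp at h1 ⊢
    cases e : C.gate g with
    | lit v b => rw [e] at h1; exact ⟨trivial, h1.2⟩
    | and a b => rw [e] at h1; exact h1
    | any S => rw [e] at h1; exact h1

/-- the literals which are true -/
abbrev tru (x : V → Bool) : V → Bool → Prop := fun v b => x v = b

theorem val_inv {U : Circ V} {x : V → Bool} {g : U.G} (h : U.Val x g) :
    (∃ v b, U.gate g = Gate.lit v b ∧ x v = b) ∨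
    (∃ a b, U.gate g = Gate.and a b ∧ U.Val x a ∧ U.Val x b) ∨
    ∃ S a, U.gate g = Gate.any S ∧ a ∈ S ∧ U.Val x a := by
  cases h with
  | lit e h => exact Or.inl ⟨_, _, e, h⟩
  | and e ha hb => exact Or.inr (Or.inl ⟨_, _, e, ha, hb⟩)
  | any e ha h => exact Or.inr (Or.inr ⟨_, _, e, ha, h⟩)

theorem unr_val (x : V → Bool) {n : ℕ} : ∀ {g : C.G} {hn : n < Fintype.card C.G + 1},
    (unr C p).Val x (g, ⟨n, hn⟩) ↔ ∃ c, DerN C p (tru x) n g c := by
  induction n with
  | zero =>
    intro g hn
    constructor
    · intro h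
      rcases val_inv h with ⟨v, b, e, -⟩ | ⟨a, b, e, -⟩ | ⟨S, a, e, ha, -⟩
      · rw [unr_zero] at e; cases e
      · rw [unr_zero] at e; cases e
      · rw [unr_zero] at e
        rw [← Gate.any.inj e] at ha
        exact absurd ha (Set.notMem_empty _)
    · rintro ⟨c, h⟩
      exact h.elim
  | succ n ih =>
    intro g hn
    constructor
    · intro h
      cases e0 : C.gate g with
      | lit v b =>
        have e1 := unr_lit (p := p) (hn := hn) e0
        rcases val_inv h with ⟨v', b', e, h'⟩ | ⟨a', b', e, -⟩ | ⟨S', a', e, -, -⟩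
        · rw [e1] at e
          obtain ⟨h1, h2⟩ := Gate.lit.inj e
          subst h1 h2
          refine ⟨fun j => by classical exact if p j = v then 1 else 0, ?_⟩
          change Stp C p (tru x) _ g _
          unfold Stp
          rw [e0]
          exact ⟨h', rfl⟩
        · rw [e1] at e; cases e
        · rw [e1] at e; cases e
      | and a b =>
        by_cases hc : (∃ c, DerN C p (free V) n a c) ∧ (∃ c, DerN C p (free V) n b c)
        · have e1 := unr_and (hn := hn) e0 hc
          rcases val_inv h with ⟨v', b', e, h'⟩ | ⟨a', b', e, ha, hb⟩ | ⟨S', a', e, -, -⟩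
          · rw [e1] at e; cases e
          · rw [e1] at e
            obtain ⟨h1, h2⟩ := Gate.and.inj e
            rw [← h1] at ha
            rw [← h2] at hb
            obtain ⟨c1, hc1⟩ := ih.1 ha
            obtain ⟨c2, hc2⟩ := ih.1 hb
            refine ⟨fun j => c1 j + c2 j, ?_⟩
            change Stp C p (tru x) _ g _
            unfold Stp
            rw [e0]
            exact ⟨c1, c2, hc1, hc2, rfl⟩
          · rw [e1] at e; cases e
        · have e1 := unr_and' (hn := hn) e0 hc
          rcases val_inv h with ⟨v', b', e, h'⟩ | ⟨a', b', e, ha, hb⟩ | ⟨S', a', e, ha, -⟩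
          · rw [e1] at e; cases e
          · rw [e1] at e; cases e
          · rw [e1] at e
            rw [← Gate.any.inj e] at ha
            exact absurd ha (Set.notMem_empty _)
      | any S =>
        have e1 := unr_any (p := p) (hn := hn) e0
        rcases val_inv h with ⟨v', b', e, h'⟩ | ⟨a', b', e, ha, hb⟩ | ⟨S', a, e, ha, h'⟩
        · rw [e1] at e; cases e
        · rw [e1] at e; cases e
        · rw [e1] at e
          rw [← Gate.any.inj e] at ha
          obtain ⟨a, ⟨m, hm⟩⟩ := a
          obtain ⟨ha1, ha2⟩ := ha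
          simp only at ha1 ha2
          subst ha2
          obtain ⟨c, hc⟩ := ih.1 h'
          refine ⟨c, ?_⟩
          change Stp C p (tru x) _ g _
          unfold Stp
          rw [e0]
          exact ⟨a, ha1, hc⟩
    · rintro ⟨c, h⟩
      change Stp C p (tru x) _ g c at h
      unfold Stp at h
      cases e0 : C.gate g with
      | lit v b =>
        rw [e0] at h
        exact Circ.Val.lit (unr_lit (p := p) (hn := hn) e0) h.1
      | and a b =>
        rw [e0] at h
        obtain ⟨c1, c2, h1, h2, -⟩ := h
        exact Circ.Val.and (unr_and (hn := hn) e0 ⟨⟨c1, derN_free h1⟩, ⟨c2, derN_free h2⟩⟩)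
          (ih.2 ⟨c1, h1⟩) (ih.2 ⟨c2, h2⟩)
      | any S =>
        rw [e0] at h
        obtain ⟨a, ha, h1⟩ := h
        exact Circ.Val.any (a := (a, (⟨n, by omega⟩ : Fin (Fintype.card C.G + 1))))
          (unr_any (p := p) (hn := hn) e0) ⟨ha, rfl⟩ (ih.2 ⟨c, h1⟩)

theorem unr_out (x : V → Bool) : (unr C p).Val x (unr C p).out ↔ ∃ c, Der C p (tru x) C.out c := by
  have e : (unr C p).out = (C.out, ⟨Fintype.card C.G, Nat.lt_succ_self _⟩) := rfl
  rw [e, unr_val]
  exact ⟨fun ⟨c, h⟩ => ⟨c, derN_der h⟩, fun h => der_depth h⟩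

theorem unr_deg (C : Sys V) (p : J → V) :
    IsDeg (unr C p) p (fun g j => dg C p g.2.val g.1 j) := by
  refine ⟨?_, ?_, ?_⟩
  · rintro ⟨g, ⟨n, hn⟩⟩ v b e j hj
    cases n with
    | zero => rw [unr_zero] at e; cases e
    | succ n =>
      cases e0 : C.gate g with
      | lit v' b' =>
        rw [unr_lit (p := p) (hn := hn) e0] at e
        cases e
        have h : DerN C p (free V) (n + 1) g (fun j => by classical exact if p j = v then 1 else 0) := by
          change Stp C p (free V) _ g _
          unfold Stp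
          rw [e0]
          exact ⟨trivial, rfl⟩
        have h1 := le_dg h j
        simp only [hj, if_true] at h1
        exact h1
      | and a b =>
        by_cases hc : (∃ c, DerN C p (free V) n a c) ∧ (∃ c, DerN C p (free V) n b c)
        · rw [unr_and (hn := hn) e0 hc] at e; cases e
        · rw [unr_and' (hn := hn) e0 hc] at e; cases e
      | any S => rw [unr_any (p := p) (hn := hn) e0] at e; cases e
  · rintro ⟨g, ⟨n, hn⟩⟩ a b e j
    cases n with
    | zero => rw [unr_zero] at e; cases e
    | succ n =>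
      cases e0 : C.gate g with
      | lit v' b' => rw [unr_lit (p := p) (hn := hn) e0] at e; cases e
      | and a' b' =>
        by_cases hc : (∃ c, DerN C p (free V) n a' c) ∧ (∃ c, DerN C p (free V) n b' c)
        · rw [unr_and (hn := hn) e0 hc] at e
          obtain ⟨h1, h2⟩ := Gate.and.inj e
          subst h1 h2
          obtain ⟨c1, hc1, h3⟩ := dg_att hc.1 j
          obtain ⟨c2, hc2, h4⟩ := dg_att hc.2 j
          have h : DerN C p (free V) (n + 1) g (fun j => c1 j + c2 j) := by
            change Stp C p (free V) _ g _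
            unfold Stp
            rw [e0]
            exact ⟨c1, c2, hc1, hc2, rfl⟩
          have h5 := le_dg h j
          simp only at h5 ⊢
          omega
        · rw [unr_and' (hn := hn) e0 hc] at e; cases e
      | any S => rw [unr_any (p := p) (hn := hn) e0] at e; cases e
  · rintro ⟨g, ⟨n, hn⟩⟩ S a e ha j
    cases n with
    | zero =>
      rw [unr_zero] at e
      rw [← Gate.any.inj e] at ha
      exact absurd ha (Set.notMem_empty _)
    | succ n =>
      cases e0 : C.gate g with
      | lit v' b' => rw [unr_lit (p := p) (hn := hn) e0] at e; cases e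
      | and a' b' =>
        by_cases hc : (∃ c, DerN C p (free V) n a' c) ∧ (∃ c, DerN C p (free V) n b' c)
        · rw [unr_and (hn := hn) e0 hc] at e; cases e
        · rw [unr_and' (hn := hn) e0 hc] at e
          rw [← Gate.any.inj e] at ha
          exact absurd ha (Set.notMem_empty _)
      | any S' =>
        rw [unr_any (p := p) (hn := hn) e0] at e
        rw [← Gate.any.inj e] at ha
        obtain ⟨a, ⟨m, hm⟩⟩ := a
        obtain ⟨ha1, ha2⟩ := ha
        simp only at ha1 ha2
        subst ha2
        simp only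
        by_cases hc : ∃ c, DerN C p (free V) m a c
        · obtain ⟨c, hc1, h1⟩ := dg_att hc j
          rw [h1]
          apply le_dg
          change Stp C p (free V) _ g _
          unfold Stp
          rw [e0]
          exact ⟨a, ha1, hc1⟩
        · rw [dg_zero hc]
          exact Nat.zero_le _

theorem unr_le {κ : J → ℕ} (h : ∀ c, Der C p (free V) C.out c → ∀ j, c j ≤ κ j) (j : J) :
    dg C p (Fintype.card C.G) C.out j ≤ κ j := by
  by_cases hc : ∃ c, DerN C p (free V) (Fintype.card C.G) C.out c
  · obtain ⟨c, hc1, h1⟩ := dg_att hc j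
    rw [h1]
    exact h c (derN_der hc1) j
  · rw [dg_zero hc]
    exact Nat.zero_le _

theorem card_unr (C : Sys V) (p : J → V) :
    Fintype.card (unr C p).G = Fintype.card C.G * (Fintype.card C.G + 1) := by
  have h : Fintype.card (unr C p).G = Fintype.card (C.G × Fin (Fintype.card C.G + 1)) := rfl
  rw [h, Fintype.card_prod, Fintype.card_fin]

end Pool.Agent.V8H39.RM
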