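import Mathlib

/-!
# Nondeterministic oracle machines with recursive procedures: definitions
-/

set_option autoImplicit false

namespace Pool.Agent.V8H39.RM

/-- What a machine does in a state: it reads the bit `v` of the input and proceeds in the state
`next b`, `b` being the value of the bit; it writes the bit `c` at the end of the query tape; it
asks the oracle whether the string on the query tape belongs to the oracle set, and the query tape
is erased; it proceeds in one of the states of the set `next`, which it chooses
nondeterministically; it puts the symbol `c` on the stack, and if `save = true` also the contents
of the query tape, which is erased then; it takes the top entry off the stack and proceeds in the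
state `next c`, `c` being its symbol, and if the contents of the query tape were saved in this
entry, they are restored; or it accepts. -/
inductive Act (V Γ S : Type) : Type
  | read (v : V) (next : Bool → S)
  | write (c : Bool) (next : S)
  | ask (next : Bool → S)
  | guess (next : Set S)
  | push (c : Γ) (save : Bool) (next : S)
  | pop (next : Γ → S)
  | accept

/-- A nondeterministic oracle machine with a stack, with input bits indexed by `V`. The states are
the configurations of the machine without the stack and the query tape (control state, contents of
the work tapes, positions of the heads), so the logarithm of their number is the work memory. The
heights of the stack and the length of the query tape are not limited. -/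
structure RMach (V : Type) where
  /-- the stack symbols -/
  Γ : Type
  /-- the configurations, without the stack and the query tape -/
  State : Type
  /-- there are finitely many of them -/
  [fintype : Fintype State]
  /-- the start -/
  start : State
  /-- what is done in a state -/
  act : State → Act V Γ State

attribute [instance] RMach.fintype

/-- A stack entry is a symbol, possibly with the contents of the query tape. -/
abbrev Entry (Γ : Type) : Type := Γ × Option (List Bool)

/-- the entry put on the stack, if the string on the query tape is `w` -/
def entry {Γ : Type} (c : Γ) (save : Bool) (w : List Bool) : Entry Γ :=
  (c, if save then some w else none)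

namespace RMach

variable {V : Type}

/-- `P.Acc O m R q w s L`: with the oracle set of all strings of length at most `m` in `O`,
starting in the state `q` with the string `w` on the query tape and the stack `s`, the machine has
a computation which ends in an accepting state with the empty stack and reads the input bits of the
list `L`, in this order; it may read the value `b` for the bit `v` whenever `R v b`. -/
inductive Acc (P : RMach V) (O : Set (List Bool)) (m : ℕ) (R : V → Bool → Prop) :
    P.State → List Bool → List (Entry P.Γ) → List V → Prop
  | accept {q : P.State} {w : List Bool} (h : P.act q = Act.accept) : Acc P O m R q w [] []
  | read {q : P.State} {w : List Bool} {s : List (Entry P.Γ)} {v : V} {next : Bool → P.State}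
      {b : Bool} {L : List V} (h : P.act q = Act.read v next) (hb : R v b)
      (h' : Acc P O m R (next b) w s L) : Acc P O m R q w s (v :: L)
  | write {q : P.State} {w : List Bool} {s : List (Entry P.Γ)} {c : Bool} {next : P.State}
      {L : List V} (h : P.act q = Act.write c next) (h' : Acc P O m R next (w ++ [c]) s L) :
      Acc P O m R q w s L
  | yes {q : P.State} {w : List Bool} {s : List (Entry P.Γ)} {next : Bool → P.State} {L : List V}
      (h : P.act q = Act.ask next) (hw : w ∈ O ∧ w.length ≤ m)
      (h' : Acc P O m R (next true) [] s L) : Acc P O m R q w s L
  | no {q : P.State} {w : List Bool} {s : List (Entry P.Γ)} {next : Bool → P.State} {L : List V}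
      (h : P.act q = Act.ask next) (hw : ¬ (w ∈ O ∧ w.length ≤ m))
      (h' : Acc P O m R (next false) [] s L) : Acc P O m R q w s L
  | guess {q q' : P.State} {w : List Bool} {s : List (Entry P.Γ)} {next : Set P.State}
      {L : List V} (h : P.act q = Act.guess next) (hq : q' ∈ next) (h' : Acc P O m R q' w s L) :
      Acc P O m R q w s L
  | push {q : P.State} {w : List Bool} {s : List (Entry P.Γ)} {c : P.Γ} {save : Bool}
      {next : P.State} {L : List V} (h : P.act q = Act.push c save next)
      (h' : Acc P O m R next (if save then [] else w) (entry c save w :: s) L) :
      Acc P O m R q w s L
  | pop {q : P.State} {w : List Bool} {s : List (Entry P.Γ)} {c : P.Γ} {o : Option (List Bool)}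
      {next : P.Γ → P.State} {L : List V} (h : P.act q = Act.pop next)
      (h' : Acc P O m R (next c) (o.getD w) s L) : Acc P O m R q w ((c, o) :: s) L

/-- The machine with the oracle set of the strings of length at most `m` in `O` accepts the
input `x`. -/
def Accepts (P : RMach V) (O : Set (List Bool)) (m : ℕ) (x : V → Bool) : Prop :=
  ∃ L : List V, P.Acc O m (fun v b => x v = b) P.start [] [] L

/-- `L` is the list of the input bits read on a path from the start to acceptance; the path needs
not be consistent, that is, the same bit may have different values when it is read again. -/
def Path (P : RMach V) (O : Set (List Bool)) (m : ℕ) (L : List V) : Prop :=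
  P.Acc O m (fun _ _ => True) P.start [] [] L

end RMach

end Pool.Agent.V8H39.RM
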