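import Mathlib
import Pool.Agent.V8H39.RM.Defs

/-!
# Oracle machines with a stack: computations without net effect on the stack
-/

set_option autoImplicit false

namespace Pool.Agent.V8H39.RM

variable {V : Type}

/-- computations which do not touch the present contents of the stack -/
inductive Seg (P : RMach V) (O : Set (List Bool)) (m : ℕ) (R : V → Bool → Prop) :
    P.State → List Bool → P.State → List Bool → List V → Prop
  | refl (q : P.State) (w : List Bool) : Seg P O m R q w q w []
  | read {q q' : P.State} {w w' : List Bool} {v : V} {next : Bool → P.State} {b : Bool}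
      {L : List V} (h : P.act q = Act.read v next) (hb : R v b)
      (h' : Seg P O m R (next b) w q' w' L) : Seg P O m R q w q' w' (v :: L)
  | write {q q' : P.State} {w w' : List Bool} {c : Bool} {next : P.State}
      {L : List V} (h : P.act q = Act.write c next) (h' : Seg P O m R next (w ++ [c]) q' w' L) :
      Seg P O m R q w q' w' L
  | yes {q q' : P.State} {w w' : List Bool} {next : Bool → P.State} {L : List V}
      (h : P.act q = Act.ask next) (hw : w ∈ O ∧ w.length ≤ m)
      (h' : Seg P O m R (next true) [] q' w' L) : Seg P O m R q w q' w' L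
  | no {q q' : P.State} {w w' : List Bool} {next : Bool → P.State} {L : List V}
      (h : P.act q = Act.ask next) (hw : ¬ (w ∈ O ∧ w.length ≤ m))
      (h' : Seg P O m R (next false) [] q' w' L) : Seg P O m R q w q' w' L
  | guess {q r q' : P.State} {w w' : List Bool} {next : Set P.State}
      {L : List V} (h : P.act q = Act.guess next) (hq : r ∈ next) (h' : Seg P O m R r w q' w' L) :
      Seg P O m R q w q' w' L
  | call {q q₁ q' : P.State} {w w₁ w' : List Bool} {c : P.Γ} {save : Bool} {next : P.State}
      {next₁ : P.Γ → P.State} {L₁ L₂ : List V} (h : P.act q = Act.push c save next)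
      (h₁ : Seg P O m R next (if save then [] else w) q₁ w₁ L₁) (h' : P.act q₁ = Act.pop next₁)
      (h₂ : Seg P O m R (next₁ c) ((entry c save w).2.getD w₁) q' w' L₂) :
      Seg P O m R q w q' w' (L₁ ++ L₂)

/-- accepting computations, cut into pieces -/
inductive AccS (P : RMach V) (O : Set (List Bool)) (m : ℕ) (R : V → Bool → Prop) :
    P.State → List Bool → List (Entry P.Γ) → List V → Prop
  | nil {q q' : P.State} {w w' : List Bool} {L : List V} (h : Seg P O m R q w q' w' L)
      (h' : P.act q' = Act.accept) : AccS P O m R q w [] L
  | cons {q q' : P.State} {w w' : List Bool} {c : P.Γ} {o : Option (List Bool)}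
      {s : List (Entry P.Γ)} {L₁ L₂ : List V} {next : P.Γ → P.State}
      (h : Seg P O m R q w q' w' L₁) (h' : P.act q' = Act.pop next)
      (h₂ : AccS P O m R (next c) (o.getD w') s L₂) : AccS P O m R q w ((c, o) :: s) (L₁ ++ L₂)

variable {P : RMach V} {O : Set (List Bool)} {m : ℕ} {R : V → Bool → Prop}

/-- a step in front -/
theorem AccS.map {q r : P.State} {w w₀ : List Bool} {s : List (Entry P.Γ)} {L : List V}
    (K : List V) (h : AccS P O m R r w₀ s L)
    (f : ∀ {q' : P.State} {w' : List Bool} {L : List V}, Seg P O m R r w₀ q' w' L →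
      Seg P O m R q w q' w' (K ++ L)) : AccS P O m R q w s (K ++ L) := by
  cases h with
  | nil h h' => exact AccS.nil (f h) h'
  | cons h h' h₂ =>
    rw [← List.append_assoc]
    exact AccS.cons (f h) h' h₂

theorem acc_accS {q : P.State} {w : List Bool} {s : List (Entry P.Γ)} {L : List V}
    (h : P.Acc O m R q w s L) : AccS P O m R q w s L := by
  induction h with
  | accept h => exact AccS.nil (Seg.refl _ _) h
  | @read q w s v next b L h hb _ ih => exact ih.map [v] (fun h' => Seg.read h hb h')
  | write h _ ih => exact ih.map [] (fun h' => Seg.write h h')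
  | yes h hw _ ih => exact ih.map [] (fun h' => Seg.yes h hw h')
  | no h hw _ ih => exact ih.map [] (fun h' => Seg.no h hw h')
  | guess h hq _ ih => exact ih.map [] (fun h' => Seg.guess h hq h')
  | @push q w s c save next L h _ ih =>
    cases ih with
    | cons h₁ h' h₂ => exact h₂.map _ (fun h₃ => Seg.call h h₁ h' h₃)
  | @pop q w s c o next L h _ ih => exact AccS.cons (L₁ := []) (Seg.refl _ _) h ih

theorem seg_acc {q q' : P.State} {w w' : List Bool} {L : List V} (h : Seg P O m R q w q' w' L) :
    ∀ {s : List (Entry P.Γ)} {L' : List V}, P.Acc O m R q' w' s L' →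
      P.Acc O m R q w s (L ++ L') := by
  induction h with
  | refl q w => intro s L' h; exact h
  | read h hb _ ih => intro s L' h'; exact RMach.Acc.read h hb (ih h')
  | write h _ ih => intro s L' h'; exact RMach.Acc.write h (ih h')
  | yes h hw _ ih => intro s L' h'; exact RMach.Acc.yes h hw (ih h')
  | no h hw _ ih => intro s L' h'; exact RMach.Acc.no h hw (ih h')
  | guess h hq _ ih => intro s L' h'; exact RMach.Acc.guess h hq (ih h')
  | call h _ h₀ _ ih1 ih2 =>
    intro s L' h'
    rw [List.append_assoc]
    exact RMach.Acc.push h (ih1 (RMach.Acc.pop h₀ (ih2 h')))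

theorem accS_acc {q : P.State} {w : List Bool} {s : List (Entry P.Γ)} {L : List V}
    (h : AccS P O m R q w s L) : P.Acc O m R q w s L := by
  induction h with
  | @nil q q' w w' L h h' =>
    have := seg_acc h (RMach.Acc.accept h')
    rwa [List.append_nil] at this
  | cons h h' _ ih => exact seg_acc h (RMach.Acc.pop h' ih)

/-- accepting computations with an empty stack at the start -/
theorem acc_iff {q : P.State} {w : List Bool} {L : List V} :
    P.Acc O m R q w [] L ↔ ∃ q' w', Seg P O m R q w q' w' L ∧ P.act q' = Act.accept := by
  constructor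
  · intro h
    cases acc_accS h with
    | nil h h' => exact ⟨_, _, h, h'⟩
  · rintro ⟨q', w', h, h'⟩
    exact accS_acc (AccS.nil h h')

end Pool.Agent.V8H39.RM
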