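import Mathlib
import Pool.Agent.V8H39.RM.Cyc
import Pool.Agent.V8H39.RM.Seg
import Pool.Agent.V8H39.SO.Sim

/-!
# The gates which describe an oracle machine with a stack and a sparse oracle
-/

set_option autoImplicit false

open Finset

namespace Pool.Agent.V8H39.RM

open Pool.Agent.W896.RK Pool.Agent.V8H39.SO

/-- the gates: a true gate, the output, computations between two configurations, first steps -/
inductive It (S : Type) : Type
  | top
  | lo (b : Bool)
  | out
  | pr (s t : S)
  | lt (s : S) (b : Bool)
  | rd (s : S) (b : Bool) (t : S)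
  | pp (s w t : S)

/-- numbering of the gates -/
def toSum {S : Type} : It S → Option (Option Bool) ⊕ (S × S) ⊕ (S × Bool) ⊕ (S × Bool × S) ⊕
    (S × S × S)
  | .top => Sum.inl none
  | .out => Sum.inl (some none)
  | .lo b => Sum.inl (some (some b))
  | .pr s t => Sum.inr (Sum.inl (s, t))
  | .lt s b => Sum.inr (Sum.inr (Sum.inl (s, b)))
  | .rd s b t => Sum.inr (Sum.inr (Sum.inr (Sum.inl (s, b, t))))
  | .pp s w t => Sum.inr (Sum.inr (Sum.inr (Sum.inr (s, w, t))))

theorem toSum_inj {S : Type} : Function.Injective (toSum (S := S)) := by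
  rintro (_ | _ | _ | _ | _ | _ | _) (_ | _ | _ | _ | _ | _ | _) h <;> simp_all [toSum]

noncomputable instance {S : Type} [Fintype S] : Fintype (It S) := Fintype.ofInjective _ toSum_inj

theorem card_It (S : Type) [Fintype S] [Nonempty S] :
    Fintype.card (It S) ≤ 11 * Fintype.card S ^ 3 := by
  refine (Fintype.card_le_of_injective _ (toSum_inj (S := S))).trans ?_
  have h1 : 1 ≤ Fintype.card S := Fintype.card_pos
  simp only [Fintype.card_sum, Fintype.card_prod, Fintype.card_option, Fintype.card_bool]
  obtain ⟨n, hn⟩ : ∃ n, n = Fintype.card S := ⟨_, rfl⟩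
  rw [← hn] at h1 ⊢
  have h2 : n ^ 3 = n * (n * n) := by ring
  rw [h2]
  have h3 : n ≤ n * n := Nat.le_mul_of_pos_left _ h1
  have h4 : n * n ≤ n * (n * n) := Nat.le_mul_of_pos_left _ h1
  have h5 : n * (2 * n) = 2 * (n * n) := by ring
  rw [h5]
  omega

section

variable {V J : Type} (P : RMach V) (O : Set (List Bool)) (m : ℕ) (v₀ : V)

/-- configurations without the stack, with the part of the query tape that matters -/
abbrev St : Type := P.State × Option (pre O m)

/-- steps without reading and without the stack -/
def Sil (s s' : St P O m) : Prop :=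
  match P.act s.1 with
  | Act.write c next => s' = (next, wr O m c s.2)
  | Act.ask next => s' = (next (ans O m s.2), cls O m [])
  | Act.guess next => ∃ r ∈ next, s' = (r, s.2)
  | _ => False

/-- the gates -/
noncomputable def gt : It (St P O m) → Gate V (It (St P O m))
  | .top => Gate.any {g | ∃ b, g = .lo b}
  | .lo b => Gate.lit v₀ b
  | .out => Gate.any {g | ∃ t : St P O m, P.act t.1 = Act.accept ∧ g = .pr (P.start, cls O m []) t}
  | .pr s t => Gate.any {g | (g = .top ∧ s = t) ∨ (∃ b, g = .rd s b t) ∨
      (∃ s', Sil P O m s s' ∧ g = .pr s' t) ∨ ∃ u, g = .pp s u t}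
  | .lt s b => match P.act s.1 with
    | Act.read v _ => Gate.lit v b
    | _ => Gate.any ∅
  | .rd s b t => match P.act s.1 with
    | Act.read _ next => Gate.and (.lt s b) (.pr (next b, s.2) t)
    | _ => Gate.any ∅
  | .pp s u t => match P.act s.1, P.act u.1 with
    | Act.push c save next, Act.pop next' =>
      Gate.and (.pr (next, if save then cls O m [] else s.2) u)
        (.pr (next' c, if save then s.2 else u.2) t)
    | _, _ => Gate.any ∅

/-- the system -/
noncomputable def sys : Sys V where
  G := It (St P O m)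
  gate := gt P O m v₀
  out := .out

end

set_option linter.unusedSectionVars false

variable {V J : Type} [DecidableEq V] {P : RMach V} {O : Set (List Bool)} {m : ℕ} {v₀ : V}
  {R : V → Bool → Prop} {p : J → V}

theorem cnt_nil (p : J → V) : cnt p [] = fun _ => 0 := rfl

theorem cnt_cons (p : J → V) (v : V) (L : List V) :
    cnt p (v :: L) = fun j => cnt p [v] j + cnt p L j := by
  funext j
  unfold cnt
  rw [← List.count_append]
  rfl

theorem cnt_append (p : J → V) (L L' : List V) :
    cnt p (L ++ L') = fun j => cnt p L j + cnt p L' j := by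
  funext j
  unfold cnt
  rw [List.count_append]

theorem cnt_single (p : J → V) (v : V) :
    cnt p [v] = fun j => @ite ℕ (p j = v) (Classical.propDecidable _) 1 0 := by
  funext j
  unfold cnt
  rw [List.count_singleton]
  by_cases h : p j = v
  · simp [h]
  · have h' : ¬ v = p j := fun e => h e.symm
    simp [h, h']

theorem ans_no' {w : List Bool} (h : ¬ (w ∈ O ∧ w.length ≤ m)) : ans O m (cls O m w) = false := by
  by_cases h' : w ∈ pre O m
  · rw [cls_some h']
    have h2 : w ∉ O := by
      intro h3
      apply h
      refine ⟨h3, ?_⟩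
      rcases mem_pre.1 h' with h4 | ⟨u, -, hu, h5⟩
      · rw [h4]; exact Nat.zero_le _
      · exact h5.length_le.trans hu
    simp [ans, h2]
  · rw [cls_none h']; rfl

theorem cls_rest {c : P.Γ} {save : Bool} {w w₁ : List Bool} :
    cls O m ((entry c save w).2.getD w₁) = if save then cls O m w else cls O m w₁ := by
  cases save <;> rfl

theorem cls_new {save : Bool} {w : List Bool} :
    cls O m (if save then [] else w) = if save then cls O m [] else cls O m w := by
  cases save <;> rfl

theorem gate_sys (g : It (St P O m)) : (sys P O m v₀).gate g = gt P O m v₀ g := rfl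

/-- the true gate -/
theorem der_top (hp : ∀ j, p j ≠ v₀) (hR : ∃ b, R v₀ b) :
    Der (sys P O m v₀) p R It.top (fun _ => 0) := by
  obtain ⟨b, hb⟩ := hR
  have h1 : Der (sys P O m v₀) p R (It.lo b)
      (fun j => @ite ℕ (p j = v₀) (Classical.propDecidable _) 1 0) := Der.lit rfl hb
  have h2 : (fun j => @ite ℕ (p j = v₀) (Classical.propDecidable _) 1 0) = fun _ : J => 0 := by
    funext j; rw [if_neg (hp j)]
  rw [h2] at h1
  exact Der.any rfl ⟨b, rfl⟩ h1

/-- computations are derivations -/
theorem seg_der (hp : ∀ j, p j ≠ v₀) (hR : ∃ b, R v₀ b) {q q' : P.State} {w w' : List Bool}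
    {L : List V} (h : Seg P O m R q w q' w' L) :
    Der (sys P O m v₀) p R (It.pr (q, cls O m w) (q', cls O m w')) (cnt p L) := by
  induction h with
  | refl q w => exact Der.any rfl (Or.inl ⟨rfl, rfl⟩) (der_top hp hR)
  | @read q q' w w' v next b L h hb _ ih =>
    have e1 : gt P O m v₀ (It.lt (q, cls O m w) b) = Gate.lit v b := by simp [gt, h]
    have e2 : gt P O m v₀ (It.rd (q, cls O m w) b (q', cls O m w')) =
        Gate.and (.lt (q, cls O m w) b) (.pr (next b, cls O m w) (q', cls O m w')) := by
      simp [gt, h]
    have h1 : Der (sys P O m v₀) p R (It.lt (q, cls O m w) b) (cnt p [v]) := by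
      rw [cnt_single]
      exact Der.lit (C := sys P O m v₀) e1 hb
    have h2 : Der (sys P O m v₀) p R (It.rd (q, cls O m w) b (q', cls O m w')) _ :=
      Der.and (C := sys P O m v₀) e2 h1 ih
    rw [cnt_cons]
    exact Der.any rfl (Or.inr (Or.inl ⟨b, rfl⟩)) h2
  | @write q q' w w' c next L h _ ih =>
    refine Der.any rfl (Or.inr (Or.inr (Or.inl ⟨_, ?_, rfl⟩))) ih
    simp [Sil, h, wr_cls]
  | @yes q q' w w' next L h hw _ ih =>
    refine Der.any rfl (Or.inr (Or.inr (Or.inl ⟨_, ?_, rfl⟩))) ih
    simp [Sil, h, ans_yes hw.1 hw.2]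
  | @no q q' w w' next L h hw _ ih =>
    refine Der.any rfl (Or.inr (Or.inr (Or.inl ⟨_, ?_, rfl⟩))) ih
    simp [Sil, h, ans_no' hw]
  | @guess q r q' w w' next L h hq _ ih =>
    refine Der.any rfl (Or.inr (Or.inr (Or.inl ⟨_, ?_, rfl⟩))) ih
    simp [Sil, h, hq]
  | @call q q₁ q' w w₁ w' c save next next₁ L₁ L₂ h _ h' _ ih1 ih2 =>
    have e2 : gt P O m v₀ (It.pp (q, cls O m w) (q₁, cls O m w₁) (q', cls O m w')) =
        Gate.and (.pr (next, if save then cls O m [] else cls O m w) (q₁, cls O m w₁))
          (.pr (next₁ c, if save then cls O m w else cls O m w₁) (q', cls O m w')) := by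
      simp only [gt, h, h']
    rw [cls_new] at ih1
    rw [cls_rest] at ih2
    rw [cnt_append]
    exact Der.any rfl (Or.inr (Or.inr (Or.inr ⟨_, rfl⟩))) (Der.and (C := sys P O m v₀) e2 ih1 ih2)

variable (P O m R p) in
/-- computations between two configurations -/
def Con (s t : St P O m) (c : J → ℕ) : Prop :=
  ∀ w, cls O m w = s.2 → ∃ w' L, Seg P O m R s.1 w t.1 w' L ∧ cls O m w' = t.2 ∧ c = cnt p L

variable (P O m R p) in
/-- what the derivations mean -/
def Itp : It (St P O m) → (J → ℕ) → Prop
  | .top, c => c = fun _ => 0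
  | .lo _, c => c = fun _ => 0
  | .out, c => ∃ L, P.Acc O m R P.start [] [] L ∧ c = cnt p L
  | .pr s t, c => Con P O m R p s t c
  | .lt s b, c => ∃ v next, P.act s.1 = Act.read v next ∧ R v b ∧ c = cnt p [v]
  | .rd s _ t, c => Con P O m R p s t c
  | .pp s _ t, c => Con P O m R p s t c

theorem der_itp (hp : ∀ j, p j ≠ v₀) {g : (sys P O m v₀).G} {c : J → ℕ}
    (h : Der (sys P O m v₀) p R g c) : Itp P O m R p g c := by
  induction h with
  | @lit g v b e h =>
    change gt P O m v₀ g = _ at e
    cases g with
    | top => simp [gt] at e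
    | lo b' =>
      simp only [gt] at e
      obtain ⟨h1, h2⟩ := Gate.lit.inj e
      subst h1
      change (fun j => _) = _
      funext j
      rw [if_neg (hp j)]
    | out => simp [gt] at e
    | pr s t => simp [gt] at e
    | lt s b' =>
      simp only [gt] at e
      cases ha : P.act s.1 with
      | read v' next =>
        rw [ha] at e
        obtain ⟨h1, h2⟩ := Gate.lit.inj e
        subst h1 h2
        exact ⟨_, next, ha, h, (cnt_single p v').symm⟩
      | _ => rw [ha] at e; simp at e
    | rd s b' t =>
      simp only [gt] at e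
      cases ha : P.act s.1 <;> rw [ha] at e <;> simp at e
    | pp s u t =>
      simp only [gt] at e
      cases ha : P.act s.1 <;> cases hb : P.act u.1 <;> rw [ha, hb] at e <;> simp at e
  | @and g a b c c' e h1 h2 ih1 ih2 =>
    change gt P O m v₀ g = _ at e
    cases g with
    | top => simp [gt] at e
    | lo b' => simp [gt] at e
    | out => simp [gt] at e
    | pr s t => simp [gt] at e
    | lt s b' =>
      simp only [gt] at e
      cases ha : P.act s.1 <;> rw [ha] at e <;> simp at e
    | rd s b' t =>
      simp only [gt] at e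
      cases ha : P.act s.1 with
      | read v' next =>
        rw [ha] at e
        obtain ⟨e1, e2⟩ := Gate.and.inj e
        subst e1 e2
        obtain ⟨v, next', h3, h4, rfl⟩ := ih1
        rw [ha] at h3
        obtain ⟨h5, h6⟩ := Act.read.inj h3
        subst h5 h6
        intro w hw
        obtain ⟨w', L, h7, h8, rfl⟩ := ih2 w hw
        exact ⟨w', v' :: L, Seg.read ha h4 h7, h8, (cnt_cons p v' L).symm⟩
      | _ => rw [ha] at e; simp at e
    | pp s u t =>
      simp only [gt] at e
      cases ha : P.act s.1 with
      | push d save next =>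
        cases hb : P.act u.1 with
        | pop next' =>
          rw [ha, hb] at e
          obtain ⟨e1, e2⟩ := Gate.and.inj e
          subst e1 e2
          intro w hw
          obtain ⟨w₁, L₁, h3, h4, rfl⟩ := ih1 (if save then [] else w) (by
            rw [cls_new]
            cases save
            · exact hw
            · rfl)
          obtain ⟨w₂, L₂, h5, h6, rfl⟩ := ih2 ((entry d save w).2.getD w₁) (by
            rw [cls_rest]
            cases save
            · exact h4
            · exact hw)
          exact ⟨w₂, L₁ ++ L₂, Seg.call ha h3 hb h5, h6, (cnt_append p L₁ L₂).symm⟩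
        | _ => rw [ha, hb] at e; simp at e
      | _ => cases hb : P.act u.1 <;> rw [ha, hb] at e <;> simp at e
  | @any g a S c e hS h ih =>
    change gt P O m v₀ g = _ at e
    cases g with
    | top =>
      simp only [gt] at e
      rw [← Gate.any.inj e] at hS
      obtain ⟨b, rfl⟩ := hS
      exact ih
    | lo b' => simp [gt] at e
    | out =>
      simp only [gt] at e
      rw [← Gate.any.inj e] at hS
      obtain ⟨t, ht, rfl⟩ := hS
      obtain ⟨w', L, h1, -, h3⟩ := ih [] rfl
      exact ⟨L, acc_iff.2 ⟨_, w', h1, ht⟩, h3⟩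
    | pr s t =>
      simp only [gt] at e
      rw [← Gate.any.inj e] at hS
      rcases hS with ⟨rfl, rfl⟩ | ⟨b, rfl⟩ | ⟨s', hs, rfl⟩ | ⟨u, rfl⟩
      · intro w hw
        exact ⟨w, [], Seg.refl _ _, hw, ih⟩
      · exact ih
      · intro w hw
        unfold Sil at hs
        cases ha : P.act s.1 with
        | write d next =>
          rw [ha] at hs
          subst hs
          obtain ⟨w', L, h1, h2, h3⟩ := ih (w ++ [d]) (by rw [← wr_cls, hw])
          exact ⟨w', L, Seg.write ha h1, h2, h3⟩
        | ask next =>
          rw [ha] at hs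
          subst hs
          obtain ⟨w', L, h1, h2, h3⟩ := ih [] rfl
          simp only at h1
          by_cases hw' : w ∈ O ∧ w.length ≤ m
          · rw [← hw, ans_yes hw'.1 hw'.2] at h1
            exact ⟨w', L, Seg.yes ha hw' h1, h2, h3⟩
          · rw [← hw, ans_no' hw'] at h1
            exact ⟨w', L, Seg.no ha hw' h1, h2, h3⟩
        | guess next =>
          rw [ha] at hs
          obtain ⟨r, hr, rfl⟩ := hs
          obtain ⟨w', L, h1, h2, h3⟩ := ih w hw
          exact ⟨w', L, Seg.guess ha hr h1, h2, h3⟩
        | _ => rw [ha] at hs; exact hs.elim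
      · exact ih
    | lt s b' =>
      simp only [gt] at e
      cases ha : P.act s.1 with
      | read v' next => rw [ha] at e; simp at e
      | _ =>
        rw [ha] at e
        rw [← Gate.any.inj e] at hS
        exact absurd hS (Set.notMem_empty _)
    | rd s b' t =>
      simp only [gt] at e
      cases ha : P.act s.1 with
      | read v' next => rw [ha] at e; simp at e
      | _ =>
        rw [ha] at e
        rw [← Gate.any.inj e] at hS
        exact absurd hS (Set.notMem_empty _)
    | pp s u t =>
      simp only [gt] at e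
      exfalso
      cases ha : P.act s.1 <;> cases hb : P.act u.1 <;> rw [ha, hb] at e <;>
        first
        | (rw [← Gate.any.inj e] at hS; exact absurd hS (Set.notMem_empty _))
        | (cases e)

/-- the output -/
theorem out_iff (hp : ∀ j, p j ≠ v₀) (hR : ∃ b, R v₀ b) (c : J → ℕ) :
    Der (sys P O m v₀) p R (sys P O m v₀).out c ↔
      ∃ L, P.Acc O m R P.start [] [] L ∧ c = cnt p L := by
  constructor
  · intro h
    exact der_itp hp h
  · rintro ⟨L, h, rfl⟩
    obtain ⟨q', w', h1, h2⟩ := acc_iff.1 h
    exact Der.any rfl ⟨_, h2, rfl⟩ (seg_der hp hR h1)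

end Pool.Agent.V8H39.RM
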