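import Mathlib
import Pool.Agent.V8H39.RM.Gates

/-!
# Circuits for oracle machines with a stack, with bounds for some of the bits
-/

set_option autoImplicit false

open Finset

namespace Pool.Agent.V8H39.RM

open Pool.Agent.W896.RK Pool.Agent.V8H39.SO

variable {V J K : Type}

theorem der_comp {C : Sys V} {p : J → V} {R : V → Bool → Prop} {g : C.G} {c : J → ℕ}
    (h : Der C p R g c) (f : K → J) : Der C (fun k => p (f k)) R g (fun k => c (f k)) := by
  induction h with
  | lit e h => exact Der.lit e h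
  | and e _ _ ih1 ih2 => exact Der.and e ih1 ih2
  | any e ha _ ih => exact Der.any e ha ih

theorem der_any {C : Sys V} {p : J → V} {R : V → Bool → Prop} {g : C.G} {c : J → ℕ}
    (h : Der C p R g c) (p' : K → V) : ∃ c', Der C p' R g c' := by
  induction h with
  | lit e h => exact ⟨_, Der.lit e h⟩
  | and e _ _ ih1 ih2 =>
    obtain ⟨c1, h1⟩ := ih1
    obtain ⟨c2, h2⟩ := ih2
    exact ⟨_, Der.and e h1 h2⟩
  | any e ha _ ih =>
    obtain ⟨c1, h1⟩ := ih
    exact ⟨_, Der.any e ha h1⟩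

theorem log_bound {s n : ℕ} (h0 : 0 < s) (hG : s ≤ 2 ^ 8 * n ^ 6) :
    Nat.log 2 s + 1 ≤ 2 ^ 4 * (Nat.log 2 n + 1) := by
  have h1 : n < 2 ^ (Nat.log 2 n + 1) := Nat.lt_pow_succ_log_self (by norm_num) _
  have h2 : s < 2 ^ (8 + 6 * (Nat.log 2 n + 1)) := by
    refine lt_of_le_of_lt hG ?_
    rw [pow_add, mul_comm 6, pow_mul]
    exact Nat.mul_lt_mul_of_pos_left (Nat.pow_lt_pow_left h1 (by norm_num)) (by norm_num)
  have h3 : Nat.log 2 s < 8 + 6 * (Nat.log 2 n + 1) := Nat.log_lt_of_lt_pow (by omega) h2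
  omega

/-- **From machines to circuits.** -/
theorem machine_circ [DecidableEq V] (P : RMach V) (O : Set (List Bool)) (m : ℕ) (v₀ : V)
    (T : V → Prop) (hT : ¬ T v₀) (κ : V → ℕ)
    (h : ∀ L, P.Path O m L → ∀ v, T v → L.count v ≤ κ v) :
    ∃ U : Circ V, Nat.log 2 (Fintype.card U.G) + 1 ≤
        2 ^ 4 * (Nat.log 2 (Fintype.card P.State * ((upTo O m).ncard * m + 2)) + 1) ∧
      (∀ x, U.Val x U.out ↔ P.Accepts O m x) ∧
      ∃ d : U.G → V → ℕ, IsDeg U id d ∧ ∀ v, T v → d U.out v ≤ κ v := by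
  have hp : ∀ j : {v // T v}, j.1 ≠ v₀ := fun j hj => hT (hj ▸ j.2)
  refine ⟨unr (sys P O m v₀) id, ?_, ?_, fun g j => dg (sys P O m v₀) id g.2.val g.1 j,
    unr_deg _ _, ?_⟩
  · obtain ⟨n, hn⟩ : ∃ n, n = Fintype.card P.State * ((upTo O m).ncard * m + 2) := ⟨_, rfl⟩
    rw [← hn]
    have hS : Fintype.card (St P O m) ≤ n := by
      have h : Fintype.card (St P O m) = Fintype.card (P.State × Option (pre O m)) := rfl
      rw [h, hn, Fintype.card_prod, Fintype.card_option, Fintype.card_coe]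
      exact Nat.mul_le_mul_left _ (Nat.add_le_add_right (card_pre O m) 1)
    have : Nonempty (St P O m) := ⟨(P.start, none)⟩
    have hN : Fintype.card (sys P O m v₀).G ≤ 11 * n ^ 3 := by
      have h : Fintype.card (sys P O m v₀).G = Fintype.card (It (St P O m)) := rfl
      rw [h]
      exact (card_It (St P O m)).trans (Nat.mul_le_mul_left _ (Nat.pow_le_pow_left hS 3))
    have hn1 : 1 ≤ n := le_trans Fintype.card_pos hS
    refine log_bound (Fintype.card_pos_iff.2 ⟨(unr (sys P O m v₀) id).out⟩) ?_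
    rw [card_unr]
    obtain ⟨N, hN'⟩ : ∃ N, N = Fintype.card (sys P O m v₀).G := ⟨_, rfl⟩
    rw [← hN'] at hN ⊢
    have h1 : 1 ≤ n ^ 3 := Nat.one_le_pow _ _ hn1
    calc N * (N + 1) ≤ (11 * n ^ 3) * (11 * n ^ 3 + n ^ 3) := by gcongr
      _ = 132 * n ^ 6 := by ring
      _ ≤ _ := Nat.mul_le_mul_right _ (by norm_num)
  · intro x
    rw [unr_out]
    constructor
    · rintro ⟨c, hc⟩
      have hc' := der_comp hc (fun j : {v // T v} => j.1)
      obtain ⟨L, h, -⟩ := (out_iff (p := fun j : {v // T v} => j.1) hp ⟨x v₀, rfl⟩ _).1 hc'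
      exact ⟨L, h⟩
    · rintro ⟨L, h⟩
      exact der_any ((out_iff (p := fun j : {v // T v} => j.1) hp ⟨x v₀, rfl⟩ _).2 ⟨L, h, rfl⟩) id
  · intro v hv
    change dg (sys P O m v₀) id (Fintype.card (sys P O m v₀).G) (sys P O m v₀).out v ≤ κ v
    by_cases hc : ∃ c, DerN (sys P O m v₀) id (free V) (Fintype.card (sys P O m v₀).G)
        (sys P O m v₀).out c
    · obtain ⟨c, hc1, h1⟩ := dg_att hc v
      rw [h1]
      have hc' := der_comp (derN_der hc1) (fun j : {v // T v} => j.1)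
      obtain ⟨L, h2, h3⟩ := (out_iff (p := fun j : {v // T v} => j.1) hp ⟨true, trivial⟩ _).1 hc'
      have h4 := congrFun h3 ⟨v, hv⟩
      simp only at h4
      rw [h4]
      exact h L h2 v hv
    · rw [dg_zero hc]
      exact Nat.zero_le _

end Pool.Agent.V8H39.RM
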