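import Mathlib
import Pool.Agent.W896.FD.Ident
import Pool.Agent.W896.FD.Tri
import Pool.Agent.V8H39.RM.Circ

/-!
# Reachability in layered graphs by machines which read the edges few times
-/

set_option autoImplicit false

open Finset

namespace Pool.Agent.V8H39.RM

open Pool.Agent.W896.RK Pool.Agent.W896.HP Pool.Agent.W896.FD Pool.Agent.W896.FD.Star
open Pool.Agent.W896.FD.Tri (Mt mt_ne mt_symm mt_unique grS_0 grS_2)
open Pool.Agent.V8H39.SO (upTo)

/-- The input `x` is a layered graph with `L + 1` layers of `N` vertices: `x (l, v, w)` says whether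
there is an edge from the vertex `v` of the layer `l` to the vertex `w` of the layer `l + 1`. The
vertex `0` of the layer `L` can be reached from the vertex `0` of the layer `0`. -/
def Reach {L N : ℕ} [NeZero N] (x : Fin L × Fin N × Fin N → Bool) : Prop :=
  ∃ q : ℕ → Fin N, q 0 = 0 ∧ q L = 0 ∧ ∀ l : Fin L, x (l, q l, q (l + 1)) = true

set_option linter.unusedSectionVars false

section

variable {L N b : ℕ} [NeZero N]

/-- The free bits: the edges from the vertex `a` of the layer `l₁` and the edges to the vertex `e`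
of the layer `l₂ + 1`. -/
def frL (l₁ l₂ : ℕ) (a e : Fin N) (v : Fin L × Fin N × Fin N) : Option (Fin N) :=
  if v.1.val = l₁ ∧ v.2.1 = a then some v.2.2 else
  if v.1.val = l₂ ∧ v.2.2 = e then some v.2.1 else none

open Classical in
/-- The fixed bits. -/
noncomputable def tabL (l₁ l₂ : ℕ) (a e : Fin N) (c : Fin b × Fin 4 ↪ Fin N)
    (ρ : Equiv.Perm (Fin N)) (v : Fin L × Fin N × Fin N) : Bool :=
  if v.1.val < l₁ then decide (v.2.1 = (if v.1.val = 0 then 0 else a) ∧ v.2.2 = a) else
  if v.1.val = l₁ then false else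
  if v.1.val = l₁ + 1 then decide (Mt c ρ v.2.1 v.2.2) else
  if v.1.val < l₂ then decide (v.2.1 = v.2.2) else
  if v.1.val = l₂ then false else
  decide (v.2.1 = e ∧ v.2.2 = (if v.1.val + 1 = L then 0 else e))

/-- The graph. -/
noncomputable def instL (l₁ l₂ : ℕ) (a e : Fin N) (c : Fin b × Fin 4 ↪ Fin N)
    (ρ : Equiv.Perm (Fin N)) (z z' : Fin b → Bool) : Fin L × Fin N × Fin N → Bool :=
  inI true (frL l₁ l₂ a e) (fun ρ v => tabL l₁ l₂ a e c ρ v) c ρ z z'

variable {l₁ l₂ : ℕ} {a e : Fin N} {c : Fin b × Fin 4 ↪ Fin N} {ρ : Equiv.Perm (Fin N)}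
  {z z' : Fin b → Bool}

theorem instL_one (h12 : l₁ + 2 ≤ l₂) {l : Fin L} (hl : l.val = l₁) (v w : Fin N) :
    instL l₁ l₂ a e c ρ z z' (l, v, w) = true ↔ v = a ∧ grS true c z z' (ρ.symm w) = true := by
  unfold instL inI frL tabL
  by_cases hv : v = a
  · simp [hl, hv]
  · have h3 : ¬ (l₁ = l₂) := by omega
    simp [hl, hv, h3]

theorem instL_two (h12 : l₁ + 2 ≤ l₂) {l : Fin L} (hl : l.val = l₂) (v w : Fin N) :
    instL l₁ l₂ a e c ρ z z' (l, v, w) = true ↔ w = e ∧ grS true c z z' (ρ.symm v) = true := by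
  have h3 : ¬ (l₂ = l₁) := by omega
  have h4 : ¬ (l₂ < l₁) := by omega
  have h5 : ¬ (l₂ = l₁ + 1) := by omega
  unfold instL inI frL tabL
  by_cases hw : w = e
  · simp [hl, hw, h3]
  · simp [hl, hw, h3, h4, h5]

theorem instL_other {l : Fin L} (h1 : l.val ≠ l₁) (h2 : l.val ≠ l₂) (v w : Fin N) :
    instL l₁ l₂ a e c ρ z z' (l, v, w) = tabL l₁ l₂ a e c ρ (l, v, w) := by
  unfold instL inI frL
  simp [h1, h2]

theorem gval_iff {v : Fin N} {i : Fin b} : (v = ρ (c (i, 0)) →
    grS true c z z' (ρ.symm v) = z i) ∧ (v = ρ (c (i, 2)) →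
    grS true c z z' (ρ.symm v) = !z' i) := by
  constructor
  · rintro rfl
    rw [Equiv.symm_apply_apply, grS_0]
  · rintro rfl
    rw [Equiv.symm_apply_apply, grS_2]

theorem reach_iff (h12 : l₁ + 2 ≤ l₂) (h2 : l₂ < L) (ha : l₁ = 0 → a = 0)
    (he : l₂ + 1 = L → e = 0) :
    Reach (instL (L := L) l₁ l₂ a e c ρ z z') ↔ ∃ i, z i = true ∧ z' i = false := by
  have key : Reach (instL (L := L) l₁ l₂ a e c ρ z z') ↔ ∃ v w, Mt c ρ v w ∧
      grS true c z z' (ρ.symm v) = true ∧ grS true c z z' (ρ.symm w) = true := by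
    constructor
    · rintro ⟨q, -, -, hq⟩
      have e1 := (instL_one h12 (l := ⟨l₁, by omega⟩) rfl _ _).1 (hq ⟨l₁, by omega⟩)
      have e2 := (instL_two h12 (l := ⟨l₂, h2⟩) rfl _ _).1 (hq ⟨l₂, h2⟩)
      have e3 := hq ⟨l₁ + 1, by omega⟩
      rw [instL_other (by simp) (by simp only; omega)] at e3
      have e3' : Mt c ρ (q (l₁ + 1)) (q (l₁ + 1 + 1)) := by
        unfold tabL at e3
        have g1 : ¬ (l₁ + 1 < l₁) := by omega
        have g2 : ¬ (l₁ + 1 = l₁) := by omega
        simp only [g1, g2, if_false, if_true, decide_eq_true_eq] at e3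
        exact e3
      have e4 : ∀ l, l₁ + 2 ≤ l → l ≤ l₂ → q l = q (l₁ + 1 + 1) := by
        intro l hl
        induction l, hl using Nat.le_induction with
        | base => intro _; rfl
        | succ l hl ih =>
          intro hl2
          have e5 := hq ⟨l, by omega⟩
          rw [instL_other (by simp only; omega) (by simp only; omega)] at e5
          unfold tabL at e5
          have g1 : ¬ (l < l₁) := by omega
          have g2 : ¬ (l = l₁) := by omega
          have g3 : ¬ (l = l₁ + 1) := by omega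
          have g4 : l < l₂ := by omega
          simp only [g1, g2, g3, g4, if_false, if_true] at e5
          rw [← of_decide_eq_true e5]
          exact ih (by omega)
      refine ⟨_, _, e3', e1.2, ?_⟩
      rw [← e4 l₂ (by omega) le_rfl]
      exact e2.2
    · rintro ⟨v, w, hm, hv, hw⟩
      refine ⟨fun l => if l = 0 then 0 else if l ≤ l₁ then a else if l = l₁ + 1 then v else
        if l ≤ l₂ then w else if l = L then 0 else e, ?_, ?_, ?_⟩
      · simp
      · have g1 : ¬ (L = 0) := by omega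
        have g2 : ¬ (L ≤ l₁) := by omega
        have g3 : ¬ (L = l₁ + 1) := by omega
        have g4 : ¬ (L ≤ l₂) := by omega
        simp [g1, g2, g3, g4]
      · intro l
        have hl := l.isLt
        rcases lt_trichotomy l.val l₁ with h3 | h3 | h3
        · rw [instL_other (by omega) (by omega)]
          unfold tabL
          have g1 : ¬ (l.val + 1 = 0) := by omega
          have g2 : l.val + 1 ≤ l₁ := by omega
          have g3 : l.val ≤ l₁ := by omega
          simp only [h3, g1, g2, g3, if_true, if_false, and_true, decide_eq_true_eq]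
        · rw [instL_one h12 h3]
          have g1 : ¬ (l₁ + 1 = 0) := by omega
          have g2 : ¬ (l₁ + 1 ≤ l₁) := by omega
          simp only [h3, le_refl, g1, g2, if_true, if_false]
          refine ⟨?_, hv⟩
          by_cases h5 : l₁ = 0
          · rw [if_pos h5, ha h5]
          · rw [if_neg h5]
        · rcases lt_trichotomy l.val l₂ with h4 | h4 | h4
          · rw [instL_other (by omega) (by omega)]
            unfold tabL
            by_cases h5 : l.val = l₁ + 1
            · have g1 : ¬ (l₁ + 1 < l₁) := by omega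
              have g2 : ¬ (l₁ + 1 = l₁) := by omega
              have g3 : ¬ (l₁ + 1 = 0) := by omega
              have g4 : ¬ (l₁ + 1 ≤ l₁) := by omega
              have g5 : ¬ (l₁ + 1 + 1 = 0) := by omega
              have g6 : ¬ (l₁ + 1 + 1 ≤ l₁) := by omega
              have g7 : ¬ (l₁ + 1 + 1 = l₁ + 1) := by omega
              have g8 : l₁ + 1 + 1 ≤ l₂ := by omega
              simp only [h5, g1, g2, g3, g4, g5, g6, g7, g8, if_true, if_false,
                decide_eq_true_eq]
              exact hm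
            · have g1 : ¬ (l.val < l₁) := by omega
              have g2 : ¬ (l.val = l₁) := by omega
              have g3 : ¬ (l.val = 0) := by omega
              have g4 : ¬ (l.val ≤ l₁) := by omega
              have g5 : ¬ (l.val + 1 = 0) := by omega
              have g6 : ¬ (l.val + 1 ≤ l₁) := by omega
              have g7 : ¬ (l.val + 1 = l₁ + 1) := by omega
              have g8 : l.val + 1 ≤ l₂ := by omega
              have g9 : l.val ≤ l₂ := by omega
              simp only [h5, h4, g1, g2, g3, g4, g5, g6, g7, g8, g9, if_true, if_false,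
                decide_true]
          · rw [instL_two h12 h4]
            have g3 : ¬ (l₂ = 0) := by omega
            have g4 : ¬ (l₂ ≤ l₁) := by omega
            have g5 : ¬ (l₂ = l₁ + 1) := by omega
            have g6 : ¬ (l₂ + 1 = 0) := by omega
            have g7 : ¬ (l₂ + 1 ≤ l₁) := by omega
            have g8 : ¬ (l₂ + 1 = l₁ + 1) := by omega
            have g9 : ¬ (l₂ + 1 ≤ l₂) := by omega
            simp only [h4, g3, g4, g5, g6, g7, g8, g9, le_refl, if_true, if_false]
            refine ⟨?_, hw⟩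
            by_cases h5 : l₂ + 1 = L
            · rw [if_pos h5, he h5]
            · rw [if_neg h5]
          · rw [instL_other (by omega) (by omega)]
            unfold tabL
            have g1 : ¬ (l.val < l₁) := by omega
            have g2 : ¬ (l.val = l₁) := by omega
            have g3 : ¬ (l.val = 0) := by omega
            have g4 : ¬ (l.val ≤ l₁) := by omega
            have g5 : ¬ (l.val + 1 = 0) := by omega
            have g6 : ¬ (l.val + 1 ≤ l₁) := by omega
            have g7 : ¬ (l.val + 1 = l₁ + 1) := by omega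
            have g8 : ¬ (l.val + 1 ≤ l₂) := by omega
            have g9 : ¬ (l.val ≤ l₂) := by omega
            have g10 : ¬ (l.val = l₁ + 1) := by omega
            have g11 : ¬ (l.val < l₂) := by omega
            have g12 : ¬ (l.val = l₂) := by omega
            have g13 : ¬ (l.val = L) := by omega
            simp only [g1, g2, g3, g4, g5, g6, g7, g8, g9, g10, g11, g12, g13, if_false,
              and_self, decide_true]
  rw [key]
  constructor
  · rintro ⟨v, w, ⟨i, ⟨h3, h4⟩ | ⟨h3, h4⟩⟩, hv, hw⟩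
    · refine ⟨i, ?_, ?_⟩
      · rw [gval_iff.1 h3] at hv; exact hv
      · rw [gval_iff.2 h4] at hw
        simpa using hw
    · refine ⟨i, ?_, ?_⟩
      · rw [gval_iff.1 h4] at hw; exact hw
      · rw [gval_iff.2 h3] at hv
        simpa using hv
  · rintro ⟨i, h3, h4⟩
    refine ⟨ρ (c (i, 0)), ρ (c (i, 2)), ⟨i, Or.inl ⟨rfl, rfl⟩⟩, ?_, ?_⟩
    · rw [gval_iff.1 rfl]; exact h3
    · rw [gval_iff.2 rfl, h4]; rfl

end

/-- **Reachability**: circuits, the edges from one vertex and to one vertex. -/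
theorem lay_two (k L N l₁ l₂ : ℕ) [NeZero N] (h12 : l₁ + 2 ≤ l₂) (h2 : l₂ < L) (a e : Fin N)
    (ha : l₁ = 0 → a = 0) (he : l₂ + 1 = L → e = 0)
    (R : Type) [Fintype R] [Nonempty R] (U : R → Circ (Fin L × Fin N × Fin N))
    (hU : ∀ r x, (U r).Val x (U r).out → ¬ Reach x)
    (hc : ∀ x, ¬ Reach x →
      Nat.card R ≤ 2 ^ (N / 2 ^ (60 * (k + 1))) * Nat.card {r // (U r).Val x (U r).out})
    (hdeg : ∀ r, ∃ f : (U r).G → Fin L × Fin N × Fin N → ℕ, IsDeg (U r) id f ∧
      ∑ v with frL l₁ l₂ a e v ≠ none, f (U r).out v ≤ k * N) :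
    ∃ r, N ≤ 2 ^ (60 * (k + 1)) * (Nat.log 2 (Fintype.card (U r).G) + 1) := by
  classical
  obtain ⟨b, hb⟩ : ∃ b, b = N / 4 := ⟨_, rfl⟩
  have hb1 : N < 4 * (b + 1) := by rw [hb]; exact Nat.lt_mul_div_succ N (by norm_num)
  have hb2 : 4 * b ≤ N := by rw [hb]; exact Nat.mul_div_le _ _
  obtain ⟨c⟩ : Nonempty (Fin b × Fin 4 ↪ Fin N) := by
    apply Function.Embedding.nonempty_of_card_le
    rw [Fintype.card_prod, Fintype.card_fin, Fintype.card_fin, Fintype.card_fin]
    omega
  refine finalI (ν := true) k (b := b) (by omega) (frL l₁ l₂ a e)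
    (fun ρ v => tabL l₁ l₂ a e c ρ v) c
    (fun ρ z z' => ¬ Reach (instL (L := L) l₁ l₂ a e c ρ z z')) 0 ?_ ?_ R U ?_ ?_ ?_
  · rw [vol_zero]
    exact Nat.one_le_two_pow
  · rintro ρ z z' h ⟨e1, e2⟩
    rw [reach_iff h12 h2 ha he] at e1 e2
    unfold dst at h
    obtain ⟨i, hi⟩ := card_pos.1 h
    have hi' := (mem_filter.1 hi).2
    cases hz : z i with
    | true =>
      cases hz' : z' i with
      | true => exact hi' (by rw [hz, hz'])
      | false => exact e1 ⟨i, hz, hz'⟩
    | false =>
      cases hz' : z' i with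
      | true => exact e2 ⟨i, hz', hz⟩
      | false => exact hi' (by rw [hz, hz'])
  · intro r ρ z z' h
    exact hU r _ h
  · intro ρ z
    apply hc
    change ¬ Reach (instL (L := L) l₁ l₂ a e c ρ z z)
    rw [reach_iff h12 h2 ha he]
    rintro ⟨i, h3, h4⟩
    rw [h3] at h4
    exact Bool.noConfusion h4
  · intro r
    obtain ⟨f, h3, h4⟩ := hdeg r
    refine ⟨f, h3, le_trans (le_of_eq ?_) h4⟩
    congr

/-- **Reachability**: machines with a stack. -/
theorem lay_mach (k L N l₁ l₂ : ℕ) [NeZero N] (h12 : l₁ + 2 ≤ l₂) (h2 : l₂ < L) (a e : Fin N)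
    (ha : l₁ = 0 → a = 0) (he : l₂ + 1 = L → e = 0)
    (R : Type) [Fintype R] [Nonempty R] (O : Set (List Bool)) (m : ℕ)
    (P : R → RMach (Fin L × Fin N × Fin N))
    (hU : ∀ r x, (P r).Accepts O m x → ¬ Reach x)
    (hc : ∀ x, ¬ Reach x →
      Nat.card R ≤ 2 ^ (N / 2 ^ (60 * (k + 1))) * Nat.card {r // (P r).Accepts O m x})
    (hdeg : ∀ r, ∃ κ : Fin L × Fin N × Fin N → ℕ,
      (∀ A, (P r).Path O m A → ∀ v, frL l₁ l₂ a e v ≠ none → A.count v ≤ κ v) ∧
      ∑ v with frL l₁ l₂ a e v ≠ none, κ v ≤ k * N) :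
    ∃ r, N ≤ 2 ^ (60 * (k + 1) + 4) *
      (Nat.log 2 (Fintype.card (P r).State * ((upTo O m).ncard * m + 2)) + 1) := by
  classical
  obtain ⟨v₀, hv₀⟩ : ∃ v₀ : Fin L × Fin N × Fin N, v₀ = (⟨l₁ + 1, by omega⟩, 0, 0) := ⟨_, rfl⟩
  have hT : ¬ frL l₁ l₂ a e v₀ ≠ none := by
    rw [hv₀, not_ne_iff]
    unfold frL
    have g1 : ¬ (l₁ + 1 = l₂) := by omega
    simp [g1]
  choose κ h3 h4 using hdeg
  choose U hU1 hU2 hU3 using fun r => machine_circ (P r) O m v₀
    (fun v => frL l₁ l₂ a e v ≠ none) hT (κ r) (by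
      intro A hA v hv
      convert h3 r A hA v hv)
  obtain ⟨r, hr⟩ := lay_two k L N l₁ l₂ h12 h2 a e ha he R U
    (fun r x hx => hU r x ((hU2 r x).1 hx)) (fun x hx => by
      refine (hc x hx).trans (le_of_eq ?_)
      congr 1
      exact Nat.card_congr (Equiv.subtypeEquivRight (fun r => (hU2 r x).symm)))
    (fun r => by
      obtain ⟨d, hd1, hd2⟩ := hU3 r
      refine ⟨d, hd1, le_trans (sum_le_sum fun v hv => ?_) (h4 r)⟩
      exact hd2 v (mem_filter.1 hv).2)
  refine ⟨r, hr.trans ?_⟩
  rw [pow_add, mul_assoc]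
  exact Nat.mul_le_mul_left _ (hU1 r)

end Pool.Agent.V8H39.RM
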